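import Pool.Agent.Helper832_MU.Tame

/-!
# Involutions and the vanishing of `μ`, without a condition on the order of the Galois group

Let `p` be an odd prime. Number fields are finite subextensions of `Qb / ℚ`, `Qb = AlgebraicClosure ℚ`, and `𝓞 Qb` is
the ring of all algebraic integers. `MuVanishes p F` says that the degrees of the maximal abelian extensions of
exponent `p` of the fields `F L`, unramified outside `p`, are bounded, where `L` runs through the layers of the
cyclotomic `ℤ_p`-extension of `ℚ`. This means that `X_Σ` is finitely generated over `ℤ_p`, i.e. `μ_p(F) = 0` for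
totally real `F`.
-/

set_option autoImplicit false

open NumberField

namespace Pool.Agent.Results.MP_4e64b4_nt.InvolutionAllOrders

/-- the field of algebraic numbers -/
abbrev Qb := AlgebraicClosure ℚ

/-- `L` is a layer of the cyclotomic `ℤ_p`-extension of `ℚ` (`p` odd): a number field contained in
`ℚ(μ_{p^∞})`, of `p`-power degree. -/
def IsLayer (p : ℕ) (L : IntermediateField ℚ Qb) : Prop :=
  L ≤ IntermediateField.adjoin ℚ {z : Qb | ∃ n, z ^ p ^ n = 1} ∧ ∃ n, Module.finrank ℚ L = p ^ n

/-- `M / E` is Galois (for `E ≤ M`) -/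
def GaloisOver (E M : IntermediateField ℚ Qb) : Prop := ∀ σ ∈ E.fixingSubgroup, ∀ x ∈ M, σ x ∈ M

/-- the Galois group of `M / E` is abelian -/
def AbelianOver (E M : IntermediateField ℚ Qb) : Prop :=
  ∀ σ ∈ E.fixingSubgroup, ∀ τ ∈ E.fixingSubgroup, ∀ x ∈ M, σ (τ x) = τ (σ x)

/-- the Galois group of `M / E` has exponent `p` -/
def ExponentOver (p : ℕ) (E M : IntermediateField ℚ Qb) : Prop :=
  ∀ σ ∈ E.fixingSubgroup, ∀ x ∈ M, (σ ^ p) x = x

/-- the inertia groups of the Galois extension `M / E` are trivial at the maximal ideals not above `p` -/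
def UnramifiedOutside (p : ℕ) (E M : IntermediateField ℚ Qb) : Prop :=
  ∀ P : Ideal (𝓞 Qb), P.IsMaximal → (p : 𝓞 Qb) ∉ P → ∀ σ ∈ E.fixingSubgroup,
    (∀ y : 𝓞 Qb, σ • y - y ∈ P) → ∀ x ∈ M, σ x = x

/-- Every finite extension `M` of `E` which is Galois over `E` with abelian Galois group of exponent `p`, unramified
at all finite primes not above `p`, has degree at most `C` over `E`. -/
def DegreeBound (p : ℕ) (E : IntermediateField ℚ Qb) (C : ℕ) : Prop :=
  ∀ M : IntermediateField ℚ Qb, E ≤ M → FiniteDimensional ℚ M → GaloisOver E M → AbelianOver E M →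
    ExponentOver p E M → UnramifiedOutside p E M → Module.finrank ℚ M ≤ C * Module.finrank ℚ E

/-- `μ_p(F) = 0`, for totally real `F` -/
def MuVanishes (p : ℕ) (F : IntermediateField ℚ Qb) : Prop :=
  ∃ C, ∀ L, IsLayer p L → DegreeBound p (F ⊔ L) C

/-- the elements of `M` fixed by `c` -/
noncomputable def fixedBy (M : IntermediateField ℚ Qb) (c : Gal(Qb/ℚ)) : IntermediateField ℚ Qb :=
  M ⊓ IntermediateField.fixedField (Subgroup.zpowers c)

/-- the elements of `M` fixed by all commutators `σ c σ⁻¹ c⁻¹` with `σ ∈ Gal(Qb/k)` -/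
noncomputable def commFixed (k M : IntermediateField ℚ Qb) (c : Gal(Qb/ℚ)) : IntermediateField ℚ Qb :=
  M ⊓ IntermediateField.fixedField
    (Subgroup.closure {g | ∃ σ ∈ k.fixingSubgroup, g = σ * c * σ⁻¹ * c⁻¹})

open Pool.Agent.Helper832_MU in
theorem degree_iff {p : ℕ} {E : IntermediateField ℚ Qb} {C : ℕ} :
    DegI p (tamG p) E C ↔ DegreeBound p E C := by
  constructor
  · intro h M h1 h2 h3 h4 h5 h6
    refine h M h1 h2 h3 h4 h5 fun P σ hσ hσE => ?_
    by_cases hP : P.IsMaximal ∧ (p : 𝓞 Qb) ∉ P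
    · rw [tamG_ne hP.1 hP.2] at hσ
      exact h6 P hP.1 hP.2 σ hσE hσ
    · rw [tamG_bot hP, Subgroup.mem_bot] at hσ
      intro x _
      rw [hσ]
      rfl
  · intro h M h1 h2 h3 h4 h5 h6
    refine h M h1 h2 h3 h4 h5 fun P hP hp σ hσE hσ => h6 P σ ?_ hσE
    rw [tamG_ne hP hp]
    exact hσ

open Pool.Agent.Helper832_MU in
theorem mu_iff {p : ℕ} {F : IntermediateField ℚ Qb} : MuI p (tamG p) F ↔ MuVanishes p F :=
  exists_congr fun _ => forall_congr' fun _ => forall_congr' fun _ => degree_iff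

/-- Let `p` be an odd prime, `M / k` a Galois extension of number fields and `c` an element of `Gal(M/k)` with
`c² = 1`. Then `μ_p(M) = 0` if and only if `μ_p = 0` for the fixed field of `c` and for the fixed field of the normal
subgroup generated by the commutators `σ c σ⁻¹ c⁻¹`, `σ ∈ Gal(M/k)`. -/
theorem result (p : ℕ) [Fact p.Prime] (hp : p ≠ 2) (k M : IntermediateField ℚ Qb) (hkM : k ≤ M)
    (hM : FiniteDimensional ℚ M) (hG : GaloisOver k M) (c : Gal(Qb/ℚ)) (hck : c ∈ k.fixingSubgroup)
    (hc : ∀ x ∈ M, c (c x) = x) :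
    MuVanishes p M ↔ MuVanishes p (fixedBy M c) ∧ MuVanishes p (commFixed k M c) := by
  rw [← mu_iff, ← mu_iff, ← mu_iff]
  constructor
  · intro h
    exact ⟨Pool.Agent.Helper832_MU.MuI.mono inf_le_left hM h,
      Pool.Agent.Helper832_MU.MuI.mono inf_le_left hM h⟩
  · rintro ⟨h1, h2⟩
    exact Pool.Agent.Helper832_MU.inv_detect hp (Pool.Agent.Helper832_MU.tamG_conj p)
      Pool.Agent.Helper832_MU.tamG_le k M hkM hM hG c hck
      ((IntermediateField.mem_fixingSubgroup_iff _ _).2 hc) h1 h2

end Pool.Agent.Results.MP_4e64b4_nt.InvolutionAllOrders
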